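import Mathlib

/-! # Naive Haar nullness of squares of small non-null sets

For a locally compact Polish group `G` let `nonN G` be the least cardinality of a subset of `G`
of positive Haar outer measure.  We show in ZFC:
* if `nonN G` is the continuum then some `S ⊆ G` of cardinality `nonN G` has a square which is
  not naively Haar null;
* for every finite nontrivial group `F` and the compact group `G = F ^ ℕ` every set `S ⊆ G` of
  cardinality less than the continuum has a naively Haar null square; hence, for these `G`,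
  a set `S` of cardinality `nonN G` with `S × S` not naively Haar null exists if and only if
  `nonN G` is the continuum.
-/

open MeasureTheory Set Cardinal

namespace Pool.Agent.Results.MP_547692_lc.SquaresIffContinuum

/-- `X` is naively Haar null: there is a Borel probability measure `μ` on `H` with
`μ (g X h) = 0` for all `g, h` (the value of a measure at an arbitrary set is its outer measure,
so this says that `g X h` is null for the completion of `μ`). -/
def NaivelyHaarNull {H : Type} [Group H] [MeasurableSpace H] (X : Set H) : Prop :=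
  ∃ μ : Measure H, IsProbabilityMeasure μ ∧ ∀ g h : H, μ ((fun x => g * x * h) '' X) = 0

/-- The least cardinality of a subset of `G` of positive left Haar (outer) measure. -/
noncomputable def nonN (G : Type) [Group G] [TopologicalSpace G] [IsTopologicalGroup G]
    [LocallyCompactSpace G] [MeasurableSpace G] [BorelSpace G] : Cardinal.{0} :=
  sInf {κ | ∃ A : Set G, #A = κ ∧ (Measure.haar : Measure G) A ≠ 0}

/-- There is a set `S ⊆ G` of cardinality `nonN G` whose square `S × S` is not naively Haar null
in `G × G`. -/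
def HasGoodSquare (G : Type) [Group G] [TopologicalSpace G] [IsTopologicalGroup G]
    [LocallyCompactSpace G] [MeasurableSpace G] [BorelSpace G] : Prop :=
  ∃ S : Set G, #S = nonN G ∧ ¬ NaivelyHaarNull (S ×ˢ S)

/-! ### The easy direction -/

theorem card_polish (G : Type) [TopologicalSpace G] [PolishSpace G] [Uncountable G] :
    #G = 𝔠 := by
  borelize G
  have h : ¬ Countable G := not_countable_iff.mpr inferInstance
  have e : G ≃ᵐ ℝ := PolishSpace.measurableEquivOfNotCountable h
    (not_countable_iff.mpr inferInstance)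
  rw [Cardinal.mk_congr e.toEquiv, Cardinal.mk_real]

theorem good_of_eq (G : Type) [Group G] [TopologicalSpace G] [IsTopologicalGroup G]
    [LocallyCompactSpace G] [PolishSpace G] [Uncountable G] [MeasurableSpace G] [BorelSpace G]
    (h : nonN G = 𝔠) : HasGoodSquare G := by
  refine ⟨univ, ?_, ?_⟩
  · rw [h, Cardinal.mk_univ, card_polish]
  · rintro ⟨μ, hμ, hμ0⟩
    have := hμ0 1 1
    simp at this

theorem nonN_le (G : Type) [Group G] [TopologicalSpace G] [IsTopologicalGroup G]
    [LocallyCompactSpace G] [PolishSpace G] [Uncountable G] [MeasurableSpace G] [BorelSpace G] :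
    nonN G ≤ 𝔠 := by
  have : (#(univ : Set G)) ∈
      {κ | ∃ A : Set G, #A = κ ∧ (Measure.haar : Measure G) A ≠ 0} := by
    refine ⟨univ, rfl, ?_⟩
    exact Measure.measure_univ_ne_zero.mpr (NeZero.ne _)
  calc nonN G ≤ #(univ : Set G) := csInf_le' this
    _ = 𝔠 := by rw [Cardinal.mk_univ, card_polish]

/-! ### The coding -/

/-- Positions: `(n, s, u)` with `s, u` binary words of length `n`. -/
abbrev Pos : Type := Σ n : ℕ, (Fin n → Bool) × (Fin n → Bool)

noncomputable instance : Encodable Pos := inferInstance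

instance : Infinite Pos := by
  refine Infinite.of_injective (fun n : ℕ => (⟨n, (fun _ => false, fun _ => false)⟩ : Pos)) ?_
  intro a b hab
  exact congrArg Sigma.fst hab

noncomputable def code : Pos ≃ ℕ := (nonempty_equiv_of_countable (α := Pos) (β := ℕ)).some

/-- The first `n` entries. -/
def rs (z : ℕ → Bool) (n : ℕ) : Fin n → Bool := fun i => z i

open Classical in
/-- The point `x_{r,z}` of `F ^ ℕ`. -/
noncomputable def pt {F : Type} [Group F] (a : F) (r z : ℕ → Bool) : ℕ → F := fun k =>
  if (code.symm k).2.1 = rs z _ ∧ (code.symm k).2.2 = rs r _ then a else 1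

theorem pt_eq {F : Type} [Group F] {a : F} {r z : ℕ → Bool} (n : ℕ) (s u : Fin n → Bool) :
    pt a r z (code ⟨n, (s, u)⟩) = open Classical in if s = rs z n ∧ u = rs r n then a else 1 := by
  classical
  have hk : code.symm (code ⟨n, (s, u)⟩) = ⟨n, (s, u)⟩ := code.symm_apply_apply _
  unfold pt
  rw [hk]

theorem ne_of_rs {z z' : ℕ → Bool} (h : z ≠ z') : ∃ N, ∀ n ≥ N, rs z n ≠ rs z' n := by
  obtain ⟨m, hm⟩ := Function.ne_iff.mp h
  refine ⟨m + 1, fun n hn he => hm ?_⟩
  exact congrFun he ⟨m, by omega⟩

/-- The support of `x⁻¹ y` at the position `(n, s, u)`. -/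
theorem supp {F : Type} [Group F] {a : F} (ha : a ≠ 1) {r z z' : ℕ → Bool} {n : ℕ}
    (hz : rs z n ≠ rs z' n) (u : Fin n → Bool) :
    ((pt a r z)⁻¹ * pt a r z') (code ⟨n, (rs z n, u)⟩) ≠ 1 ↔ u = rs r n := by
  classical
  rw [Pi.mul_apply, Pi.inv_apply, pt_eq, pt_eq]
  simp only [true_and, hz, false_and, if_false, mul_one, ne_eq, inv_eq_one]
  by_cases hu : u = rs r n
  · simp [hu, ha]
  · simp [hu]

theorem supp_none {F : Type} [Group F] {a : F} {r z z' : ℕ → Bool} {n : ℕ}
    (s u : Fin n → Bool) (hu : u ≠ rs r n) :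
    ((pt a r z)⁻¹ * pt a r z') (code ⟨n, (s, u)⟩) = 1 := by
  classical
  rw [Pi.mul_apply, Pi.inv_apply, pt_eq, pt_eq]
  simp [hu]

/-- The parameter `r` can be read off from the support of `x⁻¹ y`. -/
theorem r_unique {F : Type} [Group F] {a : F} (ha : a ≠ 1) {r r' z z' w w' : ℕ → Bool}
    (hz : z ≠ z')
    (h : ∀ k, ((pt a r z)⁻¹ * pt a r z') k = 1 ↔ ((pt a r' w)⁻¹ * pt a r' w') k = 1) :
    r = r' := by
  obtain ⟨N, hN⟩ := ne_of_rs hz
  by_contra hr
  obtain ⟨M, hM⟩ := ne_of_rs hr
  set n := max N M with hn
  have h1 := hN n (le_max_left _ _)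
  have h2 := hM n (le_max_right _ _)
  have h3 := (supp ha (r := r) h1 (rs r n)).mpr rfl
  have h4 := supp_none (a := a) (r := r') (z := w) (z' := w') (rs z n) (rs r n) h2
  exact h3 ((h _).mpr h4)

theorem pt_inj {F : Type} [Group F] {a : F} (ha : a ≠ 1) (r : ℕ → Bool) :
    Function.Injective (pt a r) := by
  intro z z' h
  by_contra hz
  obtain ⟨N, hN⟩ := ne_of_rs hz
  have h3 := (supp ha (r := r) (hN N le_rfl) (rs r N)).mpr rfl
  apply h3
  rw [h]; simp

theorem pt_cont {F : Type} [Group F] [TopologicalSpace F] (a : F)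
    (r : ℕ → Bool) : Continuous (pt a r) := by
  classical
  refine continuous_pi fun k => ?_
  unfold pt
  obtain ⟨n, s, u⟩ := code.symm k
  dsimp only
  have h1 : Continuous (fun z : ℕ → Bool => rs z n) := by
    unfold rs
    fun_prop
  have h2 : Continuous (fun w : Fin n → Bool => if s = w ∧ u = rs r n then a else 1) :=
    continuous_of_discreteTopology
  exact h2.comp h1

/-! ### Small sets are naively Haar null -/

/-- An atomless Borel probability measure on the Cantor space. -/
theorem exists_atomless : ∃ ν : Measure (ℕ → Bool), IsProbabilityMeasure ν ∧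
    ∀ A : Set (ℕ → Bool), A.Subsingleton → ν A = 0 := by
  have h1 : ¬ Countable (ℕ → Bool) := by
    rw [← Cardinal.mk_le_aleph0_iff, not_le]
    simpa using Cardinal.cantor ℵ₀
  have e : ℝ ≃ᵐ (ℕ → Bool) := PolishSpace.measurableEquivOfNotCountable
    (not_countable_iff.mpr inferInstance) h1
  refine ⟨Measure.map e (volume.restrict (Icc 0 1)), ?_, ?_⟩
  · constructor
    rw [e.map_apply]
    simp
  · intro A hA
    rw [e.map_apply]
    refine Set.Subsingleton.measure_zero ?_ _
    exact hA.preimage e.injective

/-- For a group `F ^ ℕ`, a set of cardinality less than the continuum meets every two-sided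
translate of a suitable perfect set in at most one point. -/
theorem exists_r {F : Type} [Group F] {a : F} (ha : a ≠ 1) (S : Set (ℕ → F)) (hS : #S < 𝔠) :
    ∃ r : ℕ → Bool, ∀ g h : ℕ → F, ∀ z z', pt a r z ∈ (fun x => g * x * h) '' S →
      pt a r z' ∈ (fun x => g * x * h) '' S → z = z' := by
  by_contra hcon
  push Not at hcon
  choose g h z z' hz hz' hne using hcon
  choose s hs using hz
  choose t ht using hz'
  have hinj : Function.Injective
      (fun r => ((⟨s r, (hs r).1⟩, ⟨t r, (ht r).1⟩) : S × S)) := by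
    intro r r' hrr
    simp only [Prod.mk.injEq, Subtype.mk.injEq] at hrr
    refine r_unique ha (hne r) (r' := r') (w := z r') (w' := z' r') ?_
    intro k
    rw [← (hs r).2, ← (ht r).2, ← (hs r').2, ← (ht r').2, hrr.1, hrr.2]
    simp only [Pi.mul_apply, Pi.inv_apply, mul_inv_rev]
    constructor
    · intro hk
      have : (s r' k)⁻¹ * t r' k = 1 := by
        have := congrArg (fun y => h r k * y * (h r k)⁻¹) hk
        simpa [mul_assoc] using this
      calc _ = (h r' k)⁻¹ * ((s r' k)⁻¹ * t r' k) * h r' k := by group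
        _ = 1 := by rw [this]; group
    · intro hk
      have : (s r' k)⁻¹ * t r' k = 1 := by
        have := congrArg (fun y => h r' k * y * (h r' k)⁻¹) hk
        simpa [mul_assoc] using this
      calc _ = (h r k)⁻¹ * ((s r' k)⁻¹ * t r' k) * h r k := by group
        _ = 1 := by rw [this]; group
  have h1 : #(ℕ → Bool) ≤ #(S × S) := Cardinal.mk_le_of_injective hinj
  have h2 : #(ℕ → Bool) = 𝔠 := by simp
  rw [h2, Cardinal.mk_prod] at h1
  simp only [Cardinal.lift_id] at h1
  exact absurd h1 (not_le.mpr (Cardinal.mul_lt_of_lt Cardinal.aleph0_le_continuum hS hS))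

/-- Every subset of `F ^ ℕ` of cardinality less than the continuum is null, together with all
its two-sided translates, for some Borel probability measure. -/
theorem small_null (F : Type) [Group F] [Nontrivial F] [TopologicalSpace F] [T2Space F]
    [MeasurableSpace (ℕ → F)] [BorelSpace (ℕ → F)]
    (S : Set (ℕ → F)) (hS : #S < 𝔠) : ∃ ν : Measure (ℕ → F), IsProbabilityMeasure ν ∧
      ∀ g h : ℕ → F, ν ((fun x => g * x * h) '' S) = 0 := by
  obtain ⟨a, ha⟩ := exists_ne (1 : F)
  obtain ⟨r, hr⟩ := exists_r ha S hS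
  obtain ⟨ν, hν, hν0⟩ := exists_atomless
  have hm : Measurable (pt a r) := (pt_cont a r).measurable
  refine ⟨Measure.map (pt a r) ν, Measure.isProbabilityMeasure_map hm.aemeasurable, ?_⟩
  intro g h
  have hP : MeasurableSet (range (pt a r)) :=
    (isCompact_range (pt_cont a r)).isClosed.measurableSet
  have h1 : Measure.map (pt a r) ν (range (pt a r))ᶜ = 0 := by
    rw [Measure.map_apply hm hP.compl]
    convert measure_empty (μ := ν)
    ext z; simp
  have hsub : (((fun x => g * x * h) '' S) ∩ range (pt a r)).Subsingleton := by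
    rintro _ ⟨hx, ⟨z, rfl⟩⟩ _ ⟨hy, ⟨z', rfl⟩⟩
    rw [hr g h z z' hx hy]
  have h2 : Measure.map (pt a r) ν (((fun x => g * x * h) '' S) ∩ range (pt a r)) = 0 := by
    rw [Measure.map_apply hm hsub.measurableSet]
    exact hν0 _ (hsub.preimage (pt_inj ha r))
  refine measure_mono_null (t := (((fun x => g * x * h) '' S) ∩ range (pt a r)) ∪
    (range (pt a r))ᶜ) ?_ (measure_union_null h2 h1)
  intro x hx
  by_cases hxr : x ∈ range (pt a r)
  · exact Or.inl ⟨hx, hxr⟩
  · exact Or.inr hxr

theorem small_square (F : Type) [Group F] [Finite F] [Nontrivial F] [TopologicalSpace F]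
    [DiscreteTopology F] [MeasurableSpace (ℕ → F)] [BorelSpace (ℕ → F)]
    (S : Set (ℕ → F)) (hS : #S < 𝔠) : NaivelyHaarNull (S ×ˢ S) := by
  obtain ⟨ν, hν, h0⟩ := small_null F S hS
  refine ⟨ν.prod ν, inferInstance, ?_⟩
  intro g h
  have : (fun x => g * x * h) '' (S ×ˢ S) =
      ((fun x => g.1 * x * h.1) '' S) ×ˢ ((fun x => g.2 * x * h.2) '' S) := by
    ext ⟨x, y⟩
    constructor
    · rintro ⟨⟨s, t⟩, ⟨hs, ht⟩, he⟩
      rw [Prod.ext_iff] at he
      exact ⟨⟨s, hs, he.1⟩, ⟨t, ht, he.2⟩⟩
    · rintro ⟨⟨s, hs, hs'⟩, ⟨t, ht, ht'⟩⟩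
      exact ⟨(s, t), ⟨hs, ht⟩, Prod.ext hs' ht'⟩
  rw [this, Measure.prod_prod, h0 g.1 h.1, zero_mul]

instance (F : Type) [Nontrivial F] : Uncountable (ℕ → F) := by
  rw [← not_countable_iff, ← Cardinal.mk_le_aleph0_iff, not_le]
  have h1 : #(ℕ → Bool) ≤ #(ℕ → F) := by
    obtain ⟨a, b, hab⟩ := exists_pair_ne F
    refine Cardinal.mk_le_of_injective (f := fun z n => if z n then a else b) ?_
    intro z z' h
    funext n
    have := congrFun h n
    simp only at this
    cases hz : z n <;> cases hz' : z' n <;> simp_all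
  refine lt_of_lt_of_le ?_ h1
  simpa using Cardinal.cantor ℵ₀

/-- **Main theorem.**
1. If `nonN G` is the continuum then `G` has a set `S` of cardinality `nonN G` with `S × S` not
   naively Haar null.
2. For the compact groups `G = F ^ ℕ`, `F` a finite nontrivial group, every `S ⊆ G` of
   cardinality less than the continuum has a naively Haar null square.
3. For the same groups, a set `S ⊆ G` of cardinality `nonN G` with `S × S` not naively Haar null
   exists if and only if `nonN G` is the continuum. -/
theorem result :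
    (∀ (G : Type) [Group G] [TopologicalSpace G] [IsTopologicalGroup G]
      [LocallyCompactSpace G] [PolishSpace G] [Uncountable G] [MeasurableSpace G]
      [BorelSpace G], nonN G = 𝔠 → HasGoodSquare G) ∧
    (∀ (F : Type) [Group F] [Finite F] [Nontrivial F] [TopologicalSpace F]
      [DiscreteTopology F] [MeasurableSpace (ℕ → F)] [BorelSpace (ℕ → F)]
      (S : Set (ℕ → F)), #S < 𝔠 → NaivelyHaarNull (S ×ˢ S)) ∧
    (∀ (F : Type) [Group F] [Finite F] [Nontrivial F] [TopologicalSpace F]
      [DiscreteTopology F] [MeasurableSpace (ℕ → F)] [BorelSpace (ℕ → F)],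
      HasGoodSquare (ℕ → F) ↔ nonN (ℕ → F) = 𝔠) := by
  refine ⟨fun G => good_of_eq G, fun F => small_square F, ?_⟩
  intro F _ _ _ _ _ _ _
  haveI : PolishSpace F := inferInstance
  haveI : PolishSpace (ℕ → F) := inferInstance
  constructor
  · rintro ⟨S, hS, hn⟩
    by_contra hne
    have hlt : nonN (ℕ → F) < 𝔠 := lt_of_le_of_ne (nonN_le _) hne
    exact hn (small_square F S (hS ▸ hlt))
  · exact good_of_eq _

end Pool.Agent.Results.MP_547692_lc.SquaresIffContinuum
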